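import Pool.Agent.Lib.MP_dfc9b7_an.Sigma

/-!
Removing countably many compact sets of zero analytic capacity does not change analytic capacity.
-/

open scoped ENNReal

namespace Pool.Agent.Results.MP_dfc9b7_an.CountableUnion

/-- The function `f` near infinity in the chart `w = 1 / z`, with the value `0` at infinity. -/
noncomputable def atInfinity (f : ℂ → ℂ) : ℂ → ℂ := fun w => if w = 0 then 0 else f w⁻¹

/-- Analytic capacity: the supremum of `|f'(∞)|` over the functions `f` holomorphic on the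
complement of `E` in the Riemann sphere, bounded by one, with `f(∞) = 0`. -/
noncomputable def gamma (E : Set ℂ) : ℝ≥0∞ :=
  ⨆ (f : ℂ → ℂ) (_ : AnalyticOnNhd ℂ f Eᶜ) (_ : AnalyticAt ℂ (atInfinity f) 0)
    (_ : ∀ z ∈ Eᶜ, ‖f z‖ ≤ 1), ‖deriv (atInfinity f) 0‖ₑ

theorem result (K : ℕ → Set ℂ) (hK : ∀ n, IsCompact (K n)) (h0 : ∀ n, gamma (K n) = 0)
    (E : Set ℂ) (hE : IsCompact E) :
    ⨆ (L : Set ℂ) (_ : IsCompact L) (_ : L ⊆ E \ ⋃ n, K n), gamma L = gamma E :=
  Pool.Agent.Lib.MP_dfc9b7_an.sg_main hK h0 hE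

end Pool.Agent.Results.MP_dfc9b7_an.CountableUnion
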